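import Mathlib

/-!
# Hull areas of `k`-point subsets of a grid

The `2α × w` grid in the unit square has `α (k - 1)` points for `k = 2 w + 1`, and for large `w` all
its `k`-point subsets have convex hulls of area greater than `1 / (2 (α - 1))` when `α ≥ 3`.
-/

namespace Pool.Agent.Results.MP_6b0309_co.GridHull

open MeasureTheory Set

/-- The area of the convex hull of a finite set of points of the plane. -/
noncomputable def hullArea (S : Finset (ℝ × ℝ)) : ℝ :=
  (volume (convexHull ℝ (S : Set (ℝ × ℝ)))).toReal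

/-- The rectangle `[0, d] × [0, 1/d]`. -/
def rect (d : ℝ) : Set (ℝ × ℝ) := Icc 0 d ×ˢ Icc 0 d⁻¹

/-! ## Integrals over strips -/

theorem strip (f : ℝ → ENNReal) (p q A B : ℝ) (hpq : p < q) (hA : 0 ≤ A) (hB : 0 ≤ B)
    (hf : ∀ t : ℝ, 0 ≤ t → t ≤ 1 → ENNReal.ofReal ((1 - t) * A + t * B) ≤ f ((1 - t) * p + t * q)) :
    ENNReal.ofReal ((q - p) * (A + B) / 2) ≤ ∫⁻ x in Ioc p q, f x := by
  have hqp : 0 < q - p := by linarith
  set g : ℝ → ℝ := fun x => A + (B - A) / (q - p) * (x - p) with hg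
  have h1 : ∀ x ∈ Ioc p q, ENNReal.ofReal (g x) ≤ f x := by
    intro x hx
    have h2 := hf ((x - p) / (q - p)) (div_nonneg (by linarith [hx.1]) hqp.le)
      (by rw [div_le_one hqp]; linarith [hx.2])
    have h3 : (1 - (x - p) / (q - p)) * p + (x - p) / (q - p) * q = x := by
      field_simp; ring
    have h4 : (1 - (x - p) / (q - p)) * A + (x - p) / (q - p) * B = g x := by
      simp only [hg]; field_simp; ring
    rw [h3, h4] at h2
    exact h2
  have h0 : ∀ x ∈ Ioc p q, 0 ≤ g x := by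
    intro x hx
    have h4 : g x = (1 - (x - p) / (q - p)) * A + (x - p) / (q - p) * B := by
      simp only [hg]; field_simp; ring
    rw [h4]
    have h5 : 0 ≤ (x - p) / (q - p) := div_nonneg (by linarith [hx.1]) hqp.le
    have h6 : (x - p) / (q - p) ≤ 1 := by rw [div_le_one hqp]; linarith [hx.2]
    have h7 : 0 ≤ 1 - (x - p) / (q - p) := by linarith
    positivity
  have hcont : Continuous g := by fun_prop
  have hint : IntegrableOn g (Ioc p q) := (hcont.integrableOn_Icc).mono_set Ioc_subset_Icc_self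
  calc ENNReal.ofReal ((q - p) * (A + B) / 2) = ENNReal.ofReal (∫ x in Ioc p q, g x) := by
        congr 1
        rw [← intervalIntegral.integral_of_le hpq.le]
        simp only [hg]
        rw [intervalIntegral.integral_add (by simp) (by
          apply Continuous.intervalIntegrable; fun_prop)]
        rw [intervalIntegral.integral_const_mul]
        rw [intervalIntegral.integral_sub (by simp) (by simp)]
        simp
        field_simp
        ring
    _ = ∫⁻ x in Ioc p q, ENNReal.ofReal (g x) := by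
        rw [ofReal_integral_eq_lintegral_ofReal hint]
        exact (ae_restrict_iff' measurableSet_Ioc).2 (Filter.Eventually.of_forall h0)
    _ ≤ ∫⁻ x in Ioc p q, f x := by
        exact setLIntegral_mono' measurableSet_Ioc h1

theorem strips (f : ℝ → ENNReal) (h x₀ : ℝ) (hh : 0 < h) (L : ℕ → ℝ) (N : ℕ)
    (hL : ∀ j ≤ N, 0 ≤ L j)
    (hf : ∀ j < N, ∀ t : ℝ, 0 ≤ t → t ≤ 1 → ENNReal.ofReal ((1 - t) * L j + t * L (j + 1)) ≤
      f ((1 - t) * (x₀ + j * h) + t * (x₀ + (j + 1 : ℕ) * h))) :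
    ENNReal.ofReal (∑ j ∈ Finset.range N, h * (L j + L (j + 1)) / 2) ≤
      ∫⁻ x in Ioc x₀ (x₀ + N * h), f x := by
  induction N with
  | zero => simp
  | succ N ih =>
    have ih' := ih (fun j hj => hL j (by omega)) (fun j hj => hf j (by omega))
    have hN : (0 : ℝ) ≤ N := by positivity
    have hsplit : Ioc x₀ (x₀ + (N + 1 : ℕ) * h) =
        Ioc x₀ (x₀ + N * h) ∪ Ioc (x₀ + N * h) (x₀ + (N + 1 : ℕ) * h) := by
      rw [Ioc_union_Ioc_eq_Ioc]
      · nlinarith
      · push_cast; nlinarith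
    rw [hsplit, lintegral_union measurableSet_Ioc (by
      rw [Set.disjoint_left]
      intro x hx hx2
      exact absurd hx.2 (not_le.2 hx2.1))]
    rw [Finset.sum_range_succ, ENNReal.ofReal_add]
    · refine add_le_add ih' ?_
      have h1 := strip f (x₀ + N * h) (x₀ + (N + 1 : ℕ) * h) (L N) (L (N + 1))
        (by push_cast; nlinarith) (hL N (by omega)) (hL (N + 1) le_rfl) (hf N (by omega))
      have h2 : x₀ + ((N + 1 : ℕ) : ℝ) * h - (x₀ + N * h) = h := by push_cast; ring
      rw [h2] at h1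
      exact h1
    · refine Finset.sum_nonneg (fun j hj => ?_)
      rw [Finset.mem_range] at hj
      have := hL j (by omega)
      have := hL (j + 1) (by omega)
      positivity
    · have := hL N (by omega)
      have := hL (N + 1) le_rfl
      positivity

/-! ## Slices of a compact convex set -/

section slices

variable (K : Set (ℝ × ℝ))

/-- The upper end of the slice at `x`. -/
noncomputable def up (x : ℝ) : ℝ := sSup {y | (x, y) ∈ K}

/-- The lower end of the slice at `x`. -/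
noncomputable def dn (x : ℝ) : ℝ := sInf {y | (x, y) ∈ K}

variable {K}

theorem slice_compact (hK : IsCompact K) (x : ℝ) : IsCompact {y | (x, y) ∈ K} := by
  have h1 : {y | (x, y) ∈ K} = Prod.snd '' (K ∩ {p | p.1 = x}) := by
    ext y
    constructor
    · intro hy
      exact ⟨(x, y), ⟨hy, rfl⟩, rfl⟩
    · rintro ⟨⟨a, b⟩, ⟨hab, ha⟩, rfl⟩
      have : a = x := ha
      subst this
      exact hab
  rw [h1]
  exact (hK.inter_right (isClosed_eq continuous_fst continuous_const)).image continuous_snd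

theorem up_mem (hK : IsCompact K) {x y : ℝ} (h : (x, y) ∈ K) : (x, up K x) ∈ K :=
  (slice_compact hK x).sSup_mem ⟨y, h⟩

theorem dn_mem (hK : IsCompact K) {x y : ℝ} (h : (x, y) ∈ K) : (x, dn K x) ∈ K :=
  (slice_compact hK x).sInf_mem ⟨y, h⟩

theorem le_up (hK : IsCompact K) {x y : ℝ} (h : (x, y) ∈ K) : y ≤ up K x :=
  le_csSup (slice_compact hK x).bddAbove h

theorem dn_le (hK : IsCompact K) {x y : ℝ} (h : (x, y) ∈ K) : dn K x ≤ y :=
  csInf_le (slice_compact hK x).bddBelow h

theorem convex_comb (hc : Convex ℝ K) {x y x' y' t : ℝ} (h : (x, y) ∈ K) (h' : (x', y') ∈ K)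
    (h0 : 0 ≤ t) (h1 : t ≤ 1) : ((1 - t) * x + t * x', (1 - t) * y + t * y') ∈ K := by
  have := hc h h' (show 0 ≤ 1 - t by linarith) h0 (by ring)
  simpa using this

theorem slice_volume (hc : Convex ℝ K) (hK : IsCompact K) {x x' t : ℝ} {y y' : ℝ}
    (h : (x, y) ∈ K) (h' : (x', y') ∈ K) (h0 : 0 ≤ t) (h1 : t ≤ 1) :
    ENNReal.ofReal ((1 - t) * (up K x - dn K x) + t * (up K x' - dn K x')) ≤
      volume (Prod.mk ((1 - t) * x + t * x') ⁻¹' K) := by
  have hu := convex_comb hc (up_mem hK h) (up_mem hK h') h0 h1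
  have hd := convex_comb hc (dn_mem hK h) (dn_mem hK h') h0 h1
  have hsub : Icc ((1 - t) * dn K x + t * dn K x') ((1 - t) * up K x + t * up K x') ⊆
      Prod.mk ((1 - t) * x + t * x') ⁻¹' K := by
    intro z hz
    have hconv : Convex ℝ (Prod.mk ((1 - t) * x + t * x') ⁻¹' K) := by
      intro a ha b hb s r hs hr hsr
      have h2 := hc ha hb hs hr hsr
      have h3 : s • ((1 - t) * x + t * x', a) + r • ((1 - t) * x + t * x', b) =
          ((1 - t) * x + t * x', s • a + r • b) := by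
        ext
        · simp only [Prod.fst_add, Prod.smul_fst, smul_eq_mul]
          rw [← add_mul, hsr, one_mul]
        · simp
      rw [h3] at h2
      exact h2
    exact hconv.ordConnected.out hd hu hz
  refine le_trans ?_ (measure_mono hsub)
  rw [Real.volume_Icc]
  refine ENNReal.ofReal_le_ofReal (le_of_eq ?_)
  ring

end slices

section area

variable {K : Set (ℝ × ℝ)}

/-- The length of the slice at `x`. -/
noncomputable def len (K : Set (ℝ × ℝ)) (x : ℝ) : ℝ := up K x - dn K x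

theorem len_nonneg (hK : IsCompact K) {x y : ℝ} (h : (x, y) ∈ K) : 0 ≤ len K x := by
  have h1 := le_up hK h
  have h2 := dn_le hK h
  unfold len
  linarith

theorem area_ge (hc : Convex ℝ K) (hK : IsCompact K) (h x₀ : ℝ) (hh : 0 < h) (N : ℕ)
    (hne : ∀ j ≤ N, ∃ y, (x₀ + (j : ℕ) * h, y) ∈ K) :
    ENNReal.ofReal (∑ j ∈ Finset.range N,
      h * (len K (x₀ + (j : ℕ) * h) + len K (x₀ + ((j + 1 : ℕ) : ℝ) * h)) / 2) ≤ volume K := by
  rw [Measure.volume_eq_prod, Measure.prod_apply hK.measurableSet]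
  refine le_trans ?_ (setLIntegral_le_lintegral (Ioc x₀ (x₀ + N * h)) _)
  refine strips (fun x => volume (Prod.mk x ⁻¹' K)) h x₀ hh (fun j => len K (x₀ + (j : ℕ) * h)) N
    ?_ ?_
  · intro j hj
    obtain ⟨y, hy⟩ := hne j hj
    exact len_nonneg hK hy
  · intro j hj t h0 h1
    obtain ⟨y, hy⟩ := hne j hj.le
    obtain ⟨y', hy'⟩ := hne (j + 1) hj
    exact slice_volume hc hK hy hy' h0 h1

theorem len_sum (hc : Convex ℝ K) (hK : IsCompact K) {x x' y y' t : ℝ} (h : (x, y) ∈ K)
    (h' : (x', y') ∈ K) (h0 : 0 ≤ t) (h1 : t ≤ 1) :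
    (1 - t) * len K x + t * len K x' ≤ len K ((1 - t) * x + t * x') := by
  have hu := le_up hK (convex_comb hc (up_mem hK h) (up_mem hK h') h0 h1)
  have hd := dn_le hK (convex_comb hc (dn_mem hK h) (dn_mem hK h') h0 h1)
  unfold len
  linarith

/-- The area is at least two thirds of `h` times the sum of the slice lengths. -/
theorem area_ge' (hc : Convex ℝ K) (hK : IsCompact K) (h x₀ : ℝ) (hh : 0 < h) (N : ℕ)
    (hN : 2 ≤ N) (hne : ∀ j ≤ N, ∃ y, (x₀ + (j : ℕ) * h, y) ∈ K) :
    ENNReal.ofReal (2 / 3 * h * ∑ j ∈ Finset.range (N + 1), len K (x₀ + (j : ℕ) * h)) ≤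
      volume K := by
  refine le_trans (ENNReal.ofReal_le_ofReal ?_) (area_ge hc hK h x₀ hh N hne)
  set L : ℕ → ℝ := fun j => len K (x₀ + (j : ℕ) * h) with hL
  have hN0 : (0 : ℝ) < N := by
    have : (2 : ℝ) ≤ N := by exact_mod_cast hN
    linarith
  have hnn : ∀ j ≤ N, 0 ≤ L j := by
    intro j hj
    obtain ⟨y, hy⟩ := hne j hj
    exact len_nonneg hK hy
  have e1 : ∑ j ∈ Finset.range N, h * (L j + L (j + 1)) / 2 =
      h * (∑ j ∈ Finset.range (N + 1), L j - (L 0 + L N) / 2) := by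
    have h1 := Finset.sum_range_succ L N
    have h2 := Finset.sum_range_succ' L N
    have h3 : ∑ j ∈ Finset.range N, h * (L j + L (j + 1)) / 2 =
        h / 2 * (∑ j ∈ Finset.range N, L j + ∑ j ∈ Finset.range N, L (j + 1)) := by
      rw [← Finset.sum_add_distrib, Finset.mul_sum]
      exact Finset.sum_congr rfl (fun j _ => by ring)
    rw [h3]
    have h4 : ∑ j ∈ Finset.range N, L j = ∑ j ∈ Finset.range (N + 1), L j - L N := by linarith
    have h5 : ∑ j ∈ Finset.range N, L (j + 1) = ∑ j ∈ Finset.range (N + 1), L j - L 0 := by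
      linarith
    rw [h4, h5]
    ring
  have e2 : ((N : ℝ) + 1) * (L 0 + L N) ≤ 2 * ∑ j ∈ Finset.range (N + 1), L j := by
    have h1 : ∑ j ∈ Finset.range (N + 1), L (N - j) = ∑ j ∈ Finset.range (N + 1), L j := by
      have := Finset.sum_range_reflect L (N + 1)
      simpa using this
    have h2 : 2 * ∑ j ∈ Finset.range (N + 1), L j =
        ∑ j ∈ Finset.range (N + 1), (L j + L (N - j)) := by
      rw [Finset.sum_add_distrib, h1]
      ring
    rw [h2]
    have h3 : ((N : ℝ) + 1) * (L 0 + L N) = ∑ j ∈ Finset.range (N + 1), (L 0 + L N) := by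
      rw [Finset.sum_const, Finset.card_range, nsmul_eq_mul]
      push_cast
      ring
    rw [h3]
    refine Finset.sum_le_sum (fun j hj => ?_)
    rw [Finset.mem_range] at hj
    obtain ⟨y, hy⟩ := hne 0 (by omega)
    obtain ⟨y', hy'⟩ := hne N le_rfl
    have hjN : (j : ℝ) ≤ N := by exact_mod_cast (show j ≤ N by omega)
    have ht0 : 0 ≤ (j : ℝ) / N := by positivity
    have ht1 : (j : ℝ) / N ≤ 1 := by rw [div_le_one hN0]; exact hjN
    have h4 := len_sum hc hK hy hy' ht0 ht1
    have h5 := len_sum hc hK hy hy' (t := 1 - (j : ℝ) / N) (by linarith) (by linarith)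
    have h6 : (1 - (j : ℝ) / N) * (x₀ + ((0 : ℕ) : ℝ) * h) + (j : ℝ) / N * (x₀ + (N : ℝ) * h) =
        x₀ + (j : ℝ) * h := by
      push_cast
      field_simp
      ring
    have h7 : (1 - (1 - (j : ℝ) / N)) * (x₀ + ((0 : ℕ) : ℝ) * h) +
        (1 - (j : ℝ) / N) * (x₀ + (N : ℝ) * h) = x₀ + ((N - j : ℕ) : ℝ) * h := by
      rw [Nat.cast_sub (by omega)]
      push_cast
      field_simp
      ring
    rw [h6] at h4
    rw [h7] at h5
    have h8 := add_le_add h4 h5
    have h9 : (1 - (j : ℝ) / N) * len K (x₀ + ((0 : ℕ) : ℝ) * h) +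
        (j : ℝ) / N * len K (x₀ + (N : ℝ) * h) +
        ((1 - (1 - (j : ℝ) / N)) * len K (x₀ + ((0 : ℕ) : ℝ) * h) +
        (1 - (j : ℝ) / N) * len K (x₀ + (N : ℝ) * h)) =
        len K (x₀ + ((0 : ℕ) : ℝ) * h) + len K (x₀ + (N : ℝ) * h) := by ring
    rw [h9] at h8
    exact h8
  change _ ≤ ∑ j ∈ Finset.range N, h * (L j + L (j + 1)) / 2
  rw [e1]
  have hS : 0 ≤ ∑ j ∈ Finset.range (N + 1), L j :=
    Finset.sum_nonneg (fun j hj => hnn j (by rw [Finset.mem_range] at hj; omega))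
  have hN2 : (2 : ℝ) ≤ N := by exact_mod_cast hN
  have hpos0 : 0 ≤ L 0 + L N := add_nonneg (hnn 0 (by omega)) (hnn N le_rfl)
  have e3 : (L 0 + L N) / 2 ≤ 1 / 3 * ∑ j ∈ Finset.range (N + 1), L j := by nlinarith
  nlinarith

end area

/-! ## The grid -/

/-- The grid with `m + 1` columns of `n + 1` points in the unit square. -/
noncomputable def grid (m n : ℕ) : Finset (ℝ × ℝ) :=
  (Finset.range (m + 1) ×ˢ Finset.range (n + 1)).image
    (fun p : ℕ × ℕ => ((p.1 : ℝ) / m, (p.2 : ℝ) / n))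

theorem grid_card (m n : ℕ) (hm : 0 < m) (hn : 0 < n) : (grid m n).card = (m + 1) * (n + 1) := by
  have hm' : (0 : ℝ) < m := by exact_mod_cast hm
  have hn' : (0 : ℝ) < n := by exact_mod_cast hn
  rw [grid, Finset.card_image_of_injective, Finset.card_product, Finset.card_range,
    Finset.card_range]
  rintro ⟨a, b⟩ ⟨c, d⟩ h
  simp only [Prod.mk.injEq] at h
  obtain ⟨h1, h2⟩ := h
  rw [div_left_inj' hm'.ne'] at h1
  rw [div_left_inj' hn'.ne'] at h2
  have h3 : a = c := by exact_mod_cast h1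
  have h4 : b = d := by exact_mod_cast h2
  rw [h3, h4]

theorem grid_subset (m n : ℕ) (hm : 0 < m) (hn : 0 < n) : (grid m n : Set (ℝ × ℝ)) ⊆ rect 1 := by
  have hm' : (0 : ℝ) < m := by exact_mod_cast hm
  have hn' : (0 : ℝ) < n := by exact_mod_cast hn
  intro p hp
  rw [Finset.mem_coe, grid, Finset.mem_image] at hp
  obtain ⟨⟨a, b⟩, hab, rfl⟩ := hp
  rw [Finset.mem_product, Finset.mem_range, Finset.mem_range] at hab
  have h1 : (a : ℝ) ≤ m := by exact_mod_cast (show a ≤ m by omega)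
  have h2 : (b : ℝ) ≤ n := by exact_mod_cast (show b ≤ n by omega)
  refine ⟨⟨by positivity, ?_⟩, ⟨by positivity, ?_⟩⟩
  · rw [div_le_one hm']; exact h1
  · rw [inv_one, div_le_one hn']; exact h2

/-- A subset of the grid with more than `2 (n + 1)` points has a large convex hull. -/
theorem hull_ge (m n : ℕ) (hm : 0 < m) (hn : 0 < n) (S : Finset (ℝ × ℝ)) (hS : S ⊆ grid m n)
    (hcard : 2 * (n + 1) < S.card) :
    2 / 3 * (((S.card : ℝ) - (m + 1)) / (m * n)) ≤ hullArea S := by
  have hm' : (0 : ℝ) < m := by exact_mod_cast hm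
  have hn' : (0 : ℝ) < n := by exact_mod_cast hn
  set K := convexHull ℝ (S : Set (ℝ × ℝ)) with hKdef
  have hK : IsCompact K := Set.Finite.isCompact_convexHull (𝕜 := ℝ) S.finite_toSet
  have hc : Convex ℝ K := convex_convexHull ℝ _
  have hSK : ∀ p ∈ S, p ∈ K := fun p hp => subset_convexHull ℝ _ hp
  -- the points of column `j`
  set C : ℕ → Finset ℕ := fun j => (Finset.range (n + 1)).filter
    (fun i => ((j : ℝ) / m, (i : ℝ) / n) ∈ S) with hC
  set J : Finset ℕ := (Finset.range (m + 1)).filter (fun j => (C j).Nonempty) with hJ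
  have hcardC : ∀ j, (C j).card ≤ n + 1 := by
    intro j
    exact (Finset.card_filter_le _ _).trans (by rw [Finset.card_range])
  have hsum : S.card ≤ ∑ j ∈ J, (C j).card := by
    have h1 : S ⊆ J.biUnion (fun j => (C j).image (fun i : ℕ => ((j : ℝ) / m, (i : ℝ) / n))) := by
      intro p hp
      have hp2 := hS hp
      rw [grid, Finset.mem_image] at hp2
      obtain ⟨⟨a, b⟩, hab, rfl⟩ := hp2
      rw [Finset.mem_product] at hab
      have hb : b ∈ C a := Finset.mem_filter.2 ⟨hab.2, hp⟩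
      rw [Finset.mem_biUnion]
      exact ⟨a, Finset.mem_filter.2 ⟨hab.1, ⟨b, hb⟩⟩, Finset.mem_image_of_mem _ hb⟩
    refine (Finset.card_le_card h1).trans (Finset.card_biUnion_le.trans ?_)
    exact Finset.sum_le_sum (fun j _ => Finset.card_image_le)
  have hJcard : 2 < J.card := by
    have h1 : ∑ j ∈ J, (C j).card ≤ J.card * (n + 1) := by
      have := Finset.sum_le_card_nsmul J (fun j => (C j).card) (n + 1) (fun j _ => hcardC j)
      simpa using this
    by_contra h
    have h2 : J.card * (n + 1) ≤ 2 * (n + 1) := Nat.mul_le_mul_right _ (by omega)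
    omega
  have hJne : J.Nonempty := Finset.card_pos.1 (by omega)
  set a := J.min' hJne with ha
  set b := J.max' hJne with hb
  have haJ : a ∈ J := J.min'_mem hJne
  have hbJ : b ∈ J := J.max'_mem hJne
  have hJsub : J ⊆ Finset.Icc a b := fun j hj => Finset.mem_Icc.2 ⟨J.min'_le j hj, J.le_max' j hj⟩
  have hab : a + 2 ≤ b := by
    have h1 := Finset.card_le_card hJsub
    rw [Nat.card_Icc] at h1
    omega
  have hbm : b ≤ m := by
    have := (Finset.mem_filter.1 hbJ).1
    rw [Finset.mem_range] at this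
    omega
  set N := b - a with hN
  have hjm : ∀ j : ℕ, (a : ℝ) / m + (j : ℝ) * (1 / m) = ((a + j : ℕ) : ℝ) / m := by
    intro j
    push_cast
    field_simp
  -- every column between `a` and `b` meets the hull
  have hpa : ∃ y, ((a : ℝ) / m, y) ∈ K := by
    obtain ⟨i, hi⟩ := (Finset.mem_filter.1 haJ).2
    exact ⟨_, hSK _ (Finset.mem_filter.1 hi).2⟩
  have hpb : ∃ y, ((b : ℝ) / m, y) ∈ K := by
    obtain ⟨i, hi⟩ := (Finset.mem_filter.1 hbJ).2
    exact ⟨_, hSK _ (Finset.mem_filter.1 hi).2⟩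
  have hNpos : (0 : ℝ) < N := by
    have : 0 < N := by omega
    exact_mod_cast this
  have hne : ∀ j ≤ N, ∃ y, ((a : ℝ) / m + (j : ℕ) * (1 / m), y) ∈ K := by
    intro j hj
    obtain ⟨y, hy⟩ := hpa
    obtain ⟨y', hy'⟩ := hpb
    have hjN : (j : ℝ) ≤ N := by exact_mod_cast hj
    have h1 := convex_comb hc hy hy' (t := (j : ℝ) / N) (by positivity)
      (by rw [div_le_one hNpos]; exact hjN)
    refine ⟨(1 - (j : ℝ) / N) * y + (j : ℝ) / N * y', ?_⟩
    · have h2 : (1 - (j : ℝ) / N) * ((a : ℝ) / m) + (j : ℝ) / N * ((b : ℝ) / m) =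
          (a : ℝ) / m + (j : ℝ) * (1 / m) := by
        have h3 : (b : ℝ) = a + N := by
          rw [hN, Nat.cast_sub (by omega)]; ring
        rw [h3]
        field_simp
        ring
      rw [h2] at h1
      exact h1
  have harea := area_ge' hc hK (1 / m) ((a : ℝ) / m) (by positivity) N (by omega) hne
  -- counting
  have hcount : ∀ j ≤ N, ((C (a + j)).card : ℝ) ≤
      n * len K ((a : ℝ) / m + (j : ℕ) * (1 / m)) + 1 := by
    intro j hj
    rw [hjm]
    by_cases hCe : (C (a + j)).Nonempty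
    · set i₁ := (C (a + j)).min' hCe with hi₁
      set i₂ := (C (a + j)).max' hCe with hi₂
      have hm1 : i₁ ∈ C (a + j) := (C (a + j)).min'_mem hCe
      have hm2 : i₂ ∈ C (a + j) := (C (a + j)).max'_mem hCe
      have hle : i₁ ≤ i₂ := Finset.min'_le _ _ hm2
      have hsub : C (a + j) ⊆ Finset.Icc i₁ i₂ :=
        fun i hi => Finset.mem_Icc.2 ⟨Finset.min'_le _ _ hi, Finset.le_max' _ _ hi⟩
      have h1 := Finset.card_le_card hsub
      rw [Nat.card_Icc] at h1
      have h2 : ((C (a + j)).card : ℝ) ≤ (i₂ : ℝ) - i₁ + 1 := by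
        have h3 : (C (a + j)).card + i₁ ≤ i₂ + 1 := by omega
        have h4 : ((C (a + j)).card : ℝ) + i₁ ≤ i₂ + 1 := by exact_mod_cast h3
        linarith
      have h5 := le_up hK (hSK _ (Finset.mem_filter.1 hm2).2)
      have h6 := dn_le hK (hSK _ (Finset.mem_filter.1 hm1).2)
      have h7 : (i₂ : ℝ) / n - (i₁ : ℝ) / n ≤ len K (((a + j : ℕ) : ℝ) / m) := by
        unfold len
        linarith
      have h8 : (i₂ : ℝ) - i₁ ≤ n * len K (((a + j : ℕ) : ℝ) / m) := by
        have h9 : (i₂ : ℝ) - i₁ = n * ((i₂ : ℝ) / n - (i₁ : ℝ) / n) := by field_simp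
        rw [h9]
        exact mul_le_mul_of_nonneg_left h7 hn'.le
      linarith
    · rw [Finset.not_nonempty_iff_eq_empty] at hCe
      rw [hCe]
      obtain ⟨y, hy⟩ := hne j hj
      rw [hjm] at hy
      have := len_nonneg hK hy
      simp only [Finset.card_empty, Nat.cast_zero]
      positivity
  have htotal : (S.card : ℝ) ≤
      n * ∑ j ∈ Finset.range (N + 1), len K ((a : ℝ) / m + (j : ℕ) * (1 / m)) + (N + 1) := by
    have h1 : ∑ j ∈ J, (C j).card ≤ ∑ j ∈ Finset.range (N + 1), (C (a + j)).card := by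
      calc ∑ j ∈ J, (C j).card ≤ ∑ j ∈ Finset.Icc a b, (C j).card :=
            Finset.sum_le_sum_of_subset hJsub
        _ = ∑ j ∈ Finset.range (N + 1), (C (a + j)).card := by
            rw [← Finset.Ico_add_one_right_eq_Icc, Finset.sum_Ico_eq_sum_range]
            congr 1
            congr 1
            omega
    have h2 : (S.card : ℝ) ≤ ∑ j ∈ Finset.range (N + 1), ((C (a + j)).card : ℝ) := by
      exact_mod_cast hsum.trans h1
    refine h2.trans ?_
    rw [Finset.mul_sum]
    have h3 : ∑ j ∈ Finset.range (N + 1), ((C (a + j)).card : ℝ) ≤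
        ∑ j ∈ Finset.range (N + 1), (n * len K ((a : ℝ) / m + (j : ℕ) * (1 / m)) + 1) :=
      Finset.sum_le_sum (fun j hj => hcount j (by rw [Finset.mem_range] at hj; omega))
    refine h3.trans (le_of_eq ?_)
    rw [Finset.sum_add_distrib]
    simp
  have hfin : volume K ≠ ⊤ := hK.measure_lt_top.ne
  have hNm : (N : ℝ) ≤ m := by exact_mod_cast (show N ≤ m by omega)
  set sg := ∑ j ∈ Finset.range (N + 1), len K ((a : ℝ) / m + (j : ℕ) * (1 / m)) with hsg
  have h1 : 2 / 3 * (1 / (m : ℝ)) * sg ≤ hullArea S := by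
    unfold hullArea
    exact (ENNReal.ofReal_le_iff_le_toReal hfin).1 harea
  refine le_trans ?_ h1
  have h2 : ((S.card : ℝ) - (m + 1)) / n ≤ sg := by
    rw [div_le_iff₀ hn']
    nlinarith
  have h3 : 2 / 3 * (((S.card : ℝ) - (m + 1)) / (m * n)) =
      2 / 3 * (1 / (m : ℝ)) * (((S.card : ℝ) - (m + 1)) / n) := by
    field_simp
  rw [h3]
  exact mul_le_mul_of_nonneg_left h2 (by positivity)

/-- **Large hull areas in the grid.** -/
theorem result (α : ℕ) (hα : 3 ≤ α) : ∃ k₀ : ℕ, ∀ k : ℕ, k₀ ≤ k → Odd k →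
    α ≤ k - 1 ∧ ∃ d : ℝ, 0 < d ∧ d ≤ 1 ∧ ∃ P : Finset (ℝ × ℝ),
      (P : Set (ℝ × ℝ)) ⊆ rect d ∧ P.card = α * (k - 1) ∧
      ∀ S ⊆ P, S.card = k → 1 / (2 * ((α : ℝ) - 1)) < hullArea S := by
  refine ⟨16 * α ^ 2 + 3, fun k hk hodd => ?_⟩
  obtain ⟨w, hw⟩ := hodd
  have hwα : 8 * α ^ 2 + 1 ≤ w := by omega
  have hα2 : 3 * α ≤ α ^ 2 := by nlinarith
  refine ⟨by omega, 1, one_pos, le_rfl, grid (2 * α - 1) (w - 1), ?_, ?_, ?_⟩
  · exact grid_subset _ _ (by omega) (by omega)
  · rw [grid_card _ _ (by omega) (by omega), hw]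
    have h1 : 2 * α - 1 + 1 = 2 * α := by omega
    have h2 : w - 1 + 1 = w := by omega
    rw [h1, h2, Nat.add_sub_cancel]
    ring
  · intro S hS hcard
    have h1 := hull_ge (2 * α - 1) (w - 1) (by omega) (by omega) S hS (by omega)
    refine lt_of_lt_of_le ?_ h1
    rw [hcard, hw]
    have hα' : (3 : ℝ) ≤ α := by exact_mod_cast hα
    have hw' : 8 * (α : ℝ) ^ 2 + 1 ≤ w := by exact_mod_cast hwα
    have e1 : ((2 * α - 1 : ℕ) : ℝ) = 2 * α - 1 := by
      rw [Nat.cast_sub (by omega)]; push_cast; ring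
    have e2 : ((w - 1 : ℕ) : ℝ) = w - 1 := by
      rw [Nat.cast_sub (by omega)]; push_cast; ring
    rw [e1, e2]
    push_cast
    have hp1 : (0 : ℝ) < 2 * α - 1 := by linarith
    have hp2 : (0 : ℝ) < w - 1 := by nlinarith
    have hp3 : (0 : ℝ) < 2 * ((α : ℝ) - 1) := by linarith
    have e3 : 2 / 3 * ((2 * (w : ℝ) + 1 - (2 * α - 1 + 1)) / ((2 * α - 1) * (w - 1))) =
        (2 * (2 * (w : ℝ) + 1 - 2 * α)) / (3 * ((2 * α - 1) * (w - 1))) := by
      field_simp
      ring
    rw [e3, div_lt_div_iff₀ hp3 (by positivity)]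
    nlinarith [mul_nonneg (show (0 : ℝ) ≤ 2 * α - 5 by linarith)
      (show (0 : ℝ) ≤ w - (8 * (α : ℝ) ^ 2 + 1) by linarith), mul_nonneg
      (show (0 : ℝ) ≤ α - 3 by linarith) (show (0 : ℝ) ≤ (α : ℝ) ^ 2 by positivity)]

end Pool.Agent.Results.MP_6b0309_co.GridHull
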